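import Pool.Agent.N488.KPMain

/-!
# The topologization of Kuratowski–Painlevé convergence over the box metric is not Hausdorff
-/

set_option autoImplicit false

namespace Pool.Agent.Results.MP_3b4475_gt.NotHausdorff

open Pool.Agent.R790.Mm Pool.Agent.N488.KP TopologicalSpace

/-- Let `τK` be the finest topology on the set of closed subsets of `(XX, □)` in which every
Kuratowski–Painlevé convergent net converges to its limit. It is not Hausdorff (Q1) and not
metrizable (Q2). -/
theorem result :
    IsLeast {t : TopologicalSpace (Closeds XX) | Admissible t} (tauK XX) ∧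
      ¬ @T2Space (Closeds XX) (tauK XX) ∧ ¬ @MetrizableSpace (Closeds XX) (tauK XX) :=
  ⟨isLeast_tauK XX, main, fun h => main (@t2Space_of_metrizableSpace _ (tauK XX) h)⟩

end Pool.Agent.Results.MP_3b4475_gt.NotHausdorff
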